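import Pool.Agent.LE.StmtsC
import Pool.Agent.Helper53_TrInd.Miranda

/-!
# Row DMI of table lcn (helper24): the discrete Poincare-Miranda theorem
-/

set_option autoImplicit false

open MeasureTheory ProbabilityTheory Function Filter

open scoped ENNReal BigOperators Topology

noncomputable section

namespace Pool.Agent.LE.H24

open Pool.Agent.Anderson Pool.Agent.Loc Pool.Agent.Mob Pool.Agent.LE

theorem mem_box0 {d n : ℕ} {k : Site d} :
    k ∈ box (0 : Site d) n ↔ ∀ i, -(n : ℤ) ≤ k i ∧ k i ≤ n := by
  unfold box
  rw [Finset.mem_Icc, Pi.le_def, Pi.le_def]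
  constructor
  · rintro ⟨h1, h2⟩ i
    have := h1 i
    have := h2 i
    simp only [Pi.zero_apply, zero_sub, zero_add] at *
    exact ⟨by assumption, by assumption⟩
  · intro h
    constructor
    · intro i
      have := (h i).1
      simpa using this
    · intro i
      have := (h i).2
      simpa using this

theorem dmi : DmiStmt := by
  intro d n F t h v hn hlo hhi hv
  classical
  have hn0 : (0 : ℝ) < n := by exact_mod_cast hn
  obtain ⟨Y, hY⟩ : ∃ Y : Set.Icc (0 : Fin d → ℝ) 1 → Fin d → ℝ,
      Y = fun (x : Set.Icc (0 : Fin d → ℝ) 1) (i : Fin d) => 2 * (n : ℝ) * x.1 i - n := ⟨_, rfl⟩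
  obtain ⟨w, hw⟩ : ∃ w : Site d → Set.Icc (0 : Fin d → ℝ) 1 → ℝ,
      w = fun k x => ∏ i, max 0 (1 - |Y x i - (k i : ℝ)|) := ⟨_, rfl⟩
  have hw0 : ∀ k x, 0 ≤ w k x := by
    intro k x
    rw [hw]
    exact Finset.prod_nonneg fun i _ => le_max_left _ _
  have hYc : ∀ i, Continuous fun x => Y x i := by
    intro i
    rw [hY]
    exact (continuous_const.mul ((continuous_apply i).comp continuous_subtype_val)).sub
      continuous_const
  have hwc : ∀ k, Continuous (w k) := by
    intro k
    rw [hw]
    exact continuous_finsetProd _ fun i _ =>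
      continuous_const.max (continuous_const.sub ((hYc i).sub continuous_const).abs)
  have hwne : ∀ k x, w k x ≠ 0 → ∀ i, |Y x i - (k i : ℝ)| < 1 := by
    intro k x hk i
    rw [hw] at hk
    have h1 := Finset.prod_ne_zero_iff.1 hk i (Finset.mem_univ i)
    by_contra hc
    apply h1
    exact max_eq_left (by linarith [not_lt.1 hc])
  obtain ⟨x, hx⟩ := Pool.Agent.Helper53_TrInd.miranda
    (fun i x => ∑ k ∈ box (0 : Site d) n, w k x * (F k i - v i))
    (fun i => continuous_finsetSum _ fun k _ => (hwc k).mul continuous_const)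
    (by
      intro i x hxi
      apply Finset.sum_nonpos
      intro k hk
      by_cases hk0 : w k x = 0
      · rw [hk0, zero_mul]
      · have h1 := hwne k x hk0 i
        have h2 : Y x i = -(n : ℝ) := by rw [hY]; simp only [hxi]; ring
        rw [h2] at h1
        have h3 : k i = -(n : ℤ) := by
          have h4 := (mem_box0.1 hk i).1
          have h5 : ((k i : ℤ) : ℝ) < -(n : ℝ) + 1 := by
            have := (abs_lt.1 h1).1
            linarith
          have h6 : k i < -(n : ℤ) + 1 := by exact_mod_cast h5
          omega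
        have h7 := hlo k hk i h3
        have h8 := (hv i).1
        exact mul_nonpos_of_nonneg_of_nonpos (hw0 k x) (by linarith))
    (by
      intro i x hxi
      apply Finset.sum_nonneg
      intro k hk
      by_cases hk0 : w k x = 0
      · rw [hk0, zero_mul]
      · have h1 := hwne k x hk0 i
        have h2 : Y x i = (n : ℝ) := by rw [hY]; simp only [hxi]; ring
        rw [h2] at h1
        have h3 : k i = (n : ℤ) := by
          have h4 := (mem_box0.1 hk i).2
          have h5 : (n : ℝ) - 1 < ((k i : ℤ) : ℝ) := by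
            have := (abs_lt.1 h1).2
            linarith
          have h6 : (n : ℤ) - 1 < k i := by exact_mod_cast h5
          omega
        have h7 := hhi k hk i h3
        have h8 := (hv i).2
        exact mul_nonneg (hw0 k x) (by linarith))
  -- a point of the mesh with positive weight
  obtain ⟨k, hk⟩ : ∃ k : Site d, k = fun i => ⌊Y x i⌋ := ⟨_, rfl⟩
  have hx0 : ∀ i, 0 ≤ x.1 i ∧ x.1 i ≤ 1 := fun i => ⟨x.2.1 i, x.2.2 i⟩
  have hkb : k ∈ box (0 : Site d) n := by
    rw [mem_box0]
    intro i
    rw [hk]
    constructor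
    · rw [Int.le_floor, hY]
      push_cast
      have := (hx0 i).1
      nlinarith
    · have h1 : Y x i ≤ n := by
        rw [hY]
        have := (hx0 i).2
        simp only
        nlinarith
      have h2 : ((⌊Y x i⌋ : ℤ) : ℝ) ≤ n := le_trans (Int.floor_le _) h1
      exact_mod_cast h2
  have hkw : 0 < w k x := by
    rw [hw]
    apply Finset.prod_pos
    intro i _
    apply lt_of_lt_of_le _ (le_max_right _ _)
    have h1 := Int.floor_le (Y x i)
    have h2 := Int.lt_floor_add_one (Y x i)
    have h3 : |Y x i - ((k i : ℤ) : ℝ)| < 1 := by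
      rw [hk, abs_lt]
      constructor <;> simp only <;> linarith
    linarith
  have hsd : ∀ k' : Site d, w k' x ≠ 0 → sd k k' ≤ 1 := by
    intro k' hk'
    unfold sd
    apply Finset.sup_le
    intro i _
    have h1 := hwne k x hkw.ne' i
    have h2 := hwne k' x hk' i
    have h3 : |((k i : ℤ) : ℝ) - ((k' i : ℤ) : ℝ)| < 2 := by
      rw [abs_lt] at *
      constructor <;> linarith
    have h4 : |k i - k' i| < 2 := by
      have : ((|k i - k' i| : ℤ) : ℝ) < 2 := by
        push_cast
        exact h3
      exact_mod_cast this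
    have h5 : ((k i - k' i).natAbs : ℤ) < 2 := by
      rw [Int.natCast_natAbs]
      exact h4
    omega
  refine ⟨k, hkb, fun i => ?_⟩
  have hxi := hx i
  rcases lt_trichotomy (F k i - v i) 0 with hlt | heq | hgt
  · -- some point with positive weight has a value at least `v i`
    by_cases hex : ∃ k' ∈ box (0 : Site d) n, w k' x ≠ 0 ∧ 0 ≤ F k' i - v i
    · obtain ⟨k', hk', hw', hv'⟩ := hex
      refine ⟨k', hk', hsd k' hw', ?_⟩
      rw [abs_of_nonneg (by linarith), abs_of_nonneg (by linarith)]
      linarith
    · exfalso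
      have h1 : ∑ k' ∈ box (0 : Site d) n, w k' x * (F k' i - v i) < 0 := by
        apply Finset.sum_neg'
        · intro k' hk'
          by_cases h0 : w k' x = 0
          · rw [h0, zero_mul]
          · have : ¬ 0 ≤ F k' i - v i := fun h' => hex ⟨k', hk', h0, h'⟩
            exact mul_nonpos_of_nonneg_of_nonpos (hw0 k' x) (by linarith)
        · exact ⟨k, hkb, mul_neg_of_pos_of_neg hkw hlt⟩
      exact absurd hxi h1.ne
  · refine ⟨k, hkb, hsd k hkw.ne', ?_⟩
    rw [show v i - F k i = 0 by linarith, abs_zero]
    exact abs_nonneg _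
  · by_cases hex : ∃ k' ∈ box (0 : Site d) n, w k' x ≠ 0 ∧ F k' i - v i ≤ 0
    · obtain ⟨k', hk', hw', hv'⟩ := hex
      refine ⟨k', hk', hsd k' hw', ?_⟩
      rw [abs_of_nonpos (by linarith), abs_of_nonpos (by linarith)]
      linarith
    · exfalso
      have h1 : 0 < ∑ k' ∈ box (0 : Site d) n, w k' x * (F k' i - v i) := by
        apply Finset.sum_pos'
        · intro k' hk'
          by_cases h0 : w k' x = 0
          · rw [h0, zero_mul]
          · have : ¬ F k' i - v i ≤ 0 := fun h' => hex ⟨k', hk', h0, h'⟩
            exact mul_nonneg (hw0 k' x) (by linarith)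
        · exact ⟨k, hkb, mul_pos hkw hgt⟩
      exact absurd hxi h1.ne'

end Pool.Agent.LE.H24
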